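import Pool.Agent.helper32.PN.Spec

/-!
# Row pn:SUMC
-/

set_option autoImplicit false

namespace Pool.Agent.PN

open Module Polynomial Pool.Agent.helper27.PC

noncomputable section

theorem SUMC_up_dn (c : ℕ) (y : Lab) (h : c ≤ y.2) : up c (dn c y) = y := by
  unfold up dn
  exact Prod.ext rfl (Nat.sub_add_cancel h)

theorem SUMC_dn_up (c : ℕ) (l : Lab) : dn c (up c l) = l := by
  unfold up dn
  exact Prod.ext rfl (Nat.add_sub_cancel _ _)

/-- reindexing for one ribbon -/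
theorem SUMC_bij (hHOL : HOL_stmt) (s : Bool) (K i c : ℕ) (hc : 1 ≤ c) (F : St → Lab → ℚ) (G : St → Lab → ℚ)
    (hFG : ∀ T ∈ ends (i + c) (base s K), ∀ y ∈ remv c T, F T y = G (rem c T y) (dn c y)) :
    ∑ T ∈ ends (i + c) (base s K), ∑ y ∈ remv c T, F T y =
      ∑ T ∈ ends i (base s K), ∑ l ∈ addable c T, G T l := by
  rw [Finset.sum_sigma', Finset.sum_sigma']
  refine Finset.sum_bij' (fun x _ => (⟨rem c x.1 x.2, dn c x.2⟩ : Σ _ : St, Lab))
    (fun x _ => (⟨move c x.1 x.2, up c x.2⟩ : Σ _ : St, Lab)) ?_ ?_ ?_ ?_ ?_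
  · rintro ⟨T, y⟩ hx
    rw [Finset.mem_sigma] at hx
    obtain ⟨_, _, h3, _⟩ := hHOL s K (i + c) T hx.1
    obtain ⟨h4, h5, h6, _, _⟩ := h3 c hc y hx.2
    rw [Finset.mem_sigma]
    rw [Nat.add_sub_cancel] at h5
    exact ⟨h5, h6⟩
  · rintro ⟨T, l⟩ hx
    rw [Finset.mem_sigma] at hx
    obtain ⟨_, _, _, h3⟩ := hHOL s K i T hx.1
    obtain ⟨h4, h5, _⟩ := h3 c hc l hx.2
    rw [Finset.mem_sigma]
    exact ⟨h4, h5⟩
  · rintro ⟨T, y⟩ hx
    rw [Finset.mem_sigma] at hx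
    obtain ⟨_, _, h3, _⟩ := hHOL s K (i + c) T hx.1
    obtain ⟨_, _, _, h7, _⟩ := h3 c hc y hx.2
    have hy : c ≤ y.2 := (Finset.mem_filter.1 hx.2).2.1
    have e1 : move c (rem c T y) (dn c y) = T := h7
    have e2 : up c (dn c y) = y := SUMC_up_dn c y hy
    change (⟨move c (rem c T y) (dn c y), up c (dn c y)⟩ : Σ _ : St, Lab) = ⟨T, y⟩
    rw [e1, e2]
  · rintro ⟨T, l⟩ hx
    rw [Finset.mem_sigma] at hx
    obtain ⟨_, _, _, h3⟩ := hHOL s K i T hx.1
    obtain ⟨_, _, h6⟩ := h3 c hc l hx.2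
    have e1 : rem c (move c T l) (up c l) = T := h6
    change (⟨rem c (move c T l) (up c l), dn c (up c l)⟩ : Σ _ : St, Lab) = ⟨T, l⟩
    rw [e1, SUMC_dn_up]
  · rintro ⟨T, y⟩ hx
    rw [Finset.mem_sigma] at hx
    exact hFG T hx.1 y hx.2

theorem SUMC (hHOL : HOL_stmt) : SUMC_stmt := by
  intro t K ρ J z hρ hJ
  unfold Lq ell
  rw [Finset.mul_sum]
  refine Finset.sum_congr rfl fun s _ => ?_
  by_cases hts : (t && s) = true
  · simp only [hts, if_true, Finset.sum_const_zero, mul_zero]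
  simp only [hts, Bool.false_eq_true, if_false]
  simp only [← Finset.mul_sum]
  congr 1
  have hswap : ∀ (Fn : ℕ → St → ℕ → ℚ), ∑ i ∈ Finset.range (J + ρ.sum + 2), ∑ T ∈ ends i (base s K),
      ∑ j ∈ Finset.range ρ.length, Fn i T j =
      ∑ j ∈ Finset.range ρ.length, ∑ i ∈ Finset.range (J + ρ.sum + 2), ∑ T ∈ ends i (base s K), Fn i T j := by
    intro Fn
    rw [Finset.sum_comm]
    refine Finset.sum_congr rfl fun i _ => ?_
    rw [Finset.sum_comm]
  rw [hswap]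
  refine Finset.sum_congr rfl fun j hj => ?_
  have hjl : j < ρ.length := Finset.mem_range.1 hj
  have hcm : ρ.getD j 0 ∈ ρ := by
    rw [List.getD_eq_getElem _ _ hjl]
    exact List.getElem_mem hjl
  have hodd := hρ _ hcm
  have hsum : ρ.getD j 0 ≤ ρ.sum := List.single_le_sum (fun _ _ => Nat.zero_le _) _ hcm
  generalize ρ.getD j 0 = c at *
  obtain ⟨d, rfl⟩ := hodd
  have hc1 : 1 ≤ 2 * d + 1 := by omega
  -- only `i = J + d` counts
  rw [Finset.sum_eq_single (J + d)]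
  · by_cases hlt : 2 * d + 1 < 2 * J
    · rw [if_pos hlt]
      obtain ⟨e, rfl⟩ : ∃ e, J = e + d + 1 := ⟨J - d - 1, by omega⟩
      have hip : ip (e + d + 1) (2 * d + 1) = e := by
        unfold ip
        omega
      rw [hip, show e + d + 1 + d = e + (2 * d + 1) by ring]
      refine SUMC_bij hHOL s K e (2 * d + 1) hc1 _ _ ?_
      intro T hT y hy
      obtain ⟨_, _, h3, _⟩ := hHOL s K (e + (2 * d + 1)) T hT
      obtain ⟨_, _, _, h7, h8⟩ := h3 (2 * d + 1) hc1 y hy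
      have hy2 : 2 * d + 1 ≤ y.2 := (Finset.mem_filter.1 hy).2.1
      have e2 : (dn (2 * d + 1) y).2 + (2 * d + 1) = y.2 := Nat.sub_add_cancel hy2
      have e3 : (dn (2 * d + 1) y).1 = y.1 := rfl
      have e4 : (((dn (2 * d + 1) y).2 : ℕ) : ℤ) + ((2 * d + 1 : ℕ) : ℤ) = (y.2 : ℤ) := by exact_mod_cast e2
      rw [h7, h8, Nat.add_sub_cancel, e3, e4]
      have e5 : 2 * (e + (2 * d + 1)) + 1 = 2 * (e + d + 1) + (2 * d + 1) := by ring
      simp only [e5, true_and]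
    · rw [if_neg hlt]
      refine Finset.sum_eq_zero fun T hT => Finset.sum_eq_zero fun y hy => ?_
      obtain ⟨_, _, h3, _⟩ := hHOL s K (J + d) T hT
      have h4 := (h3 (2 * d + 1) hc1 y hy).1
      omega
  · intro i _ hi
    refine Finset.sum_eq_zero fun T hT => Finset.sum_eq_zero fun y hy => ?_
    rw [if_neg]
    rintro ⟨h, _⟩
    omega
  · intro h
    exfalso
    refine h (Finset.mem_range.2 ?_)
    omega

end

end Pool.Agent.PN
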